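import Pool.Agent.R441.Num

/-!
Part (a) of the conjecture fails for `p = 13`: the sign `(-1)^((p-1)/4)` in front of `T_p` is wrong.
-/

set_option autoImplicit false

namespace Pool.Agent.Results.MP_cec948_nt.ThirteenFails

open Pool.Agent.R441 (CongMod not_congMod)

/-- `binom(a,k) = a (a-1) ⋯ (a-k+1) / k!` -/
def bc (a : ℚ) (k : ℕ) : ℚ := (∏ j ∈ Finset.range k, (a - j)) / k.factorial

/-- `S_p = ∑_{k<p} binom(-1/4,k) binom(-1/2,k) / (-3)^k` -/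
def S (p : ℕ) : ℚ := ∑ k ∈ Finset.range p, bc (-1 / 4) k * bc (-1 / 2) k / (-3) ^ k

/-- `T_p = ∑_{k<p} binom(-1/4,k) binom(-1/2,k) / 81^k` -/
def T (p : ℕ) : ℚ := ∑ k ∈ Finset.range p, bc (-1 / 4) k * bc (-1 / 2) k / 81 ^ k

/-- Part (a) of the conjecture for the prime `p ≡ 1 (mod 4)` -/
def PartA (p : ℕ) : Prop :=
  ∃ x : ℤ, Odd x ∧ (∃ y : ℤ, (p : ℤ) = x ^ 2 + y ^ 2) ∧
    CongMod p 2 (S p) (2 * x - p / (2 * x)) ∧
    CongMod p 2 ((-1) ^ ((p - 1) / 4) * T p) (2 * x - p / (2 * x))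

/-- There is a prime `p ≥ 5`, `p ≡ 1 (mod 4)` (namely `p = 13`) for which part (a) fails.
In fact `S_p ≡ 2x - p/(2x) (mod p²)` holds there for `x = 3` (`13 = 3² + 2²`), but
`(-1)^((p-1)/4) T_p ≡ -(2x - p/(2x)) (mod p²)`. -/
theorem result : ∃ p : ℕ, p = 13 ∧ p.Prime ∧ 5 ≤ p ∧ p % 4 = 1 ∧ ¬ PartA p ∧
    CongMod p 2 (S p) (2 * 3 - p / (2 * 3)) ∧
    CongMod p 2 ((-1) ^ ((p - 1) / 4) * T p) (-(2 * 3 - p / (2 * 3))) := by
  have hx3 : ∀ x y : ℤ, Odd x → ((13 : ℕ) : ℤ) = x ^ 2 + y ^ 2 → x = 3 ∨ x = -3 := by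
    intro x y ho h
    have hx : x ^ 2 ≤ 13 := by push_cast at h; nlinarith [sq_nonneg y]
    have hy : y ^ 2 ≤ 13 := by push_cast at h; nlinarith [sq_nonneg x]
    have hx1 : x ≤ 3 := by nlinarith
    have hx2 : -3 ≤ x := by nlinarith
    have hy1 : y ≤ 3 := by nlinarith
    have hy2 : -3 ≤ y := by nlinarith
    obtain ⟨t, rfl⟩ := ho
    have ht1 : t ≤ 1 := by omega
    have ht2 : -2 ≤ t := by omega
    interval_cases t <;> interval_cases y <;> simp_all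
  refine ⟨13, rfl, by norm_num, by norm_num, by norm_num, ?_, ?_, ?_⟩
  · rintro ⟨x, ho, ⟨y, hy⟩, h1, h2⟩
    rcases hx3 x y ho hy with rfl | rfl
    · exact not_congMod (by norm_num) (by decide +kernel) h2
    · exact not_congMod (by norm_num) (by decide +kernel) h1
  · refine ⟨(S 13 - (2 * 3 - (13 : ℕ) / (2 * 3))) / 13 ^ 2, by decide +kernel, by push_cast; ring⟩
  · refine ⟨((-1) ^ (((13 : ℕ) - 1) / 4) * T 13 - -(2 * 3 - (13 : ℕ) / (2 * 3))) / 13 ^ 2,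
      by decide +kernel, by push_cast; ring⟩

end Pool.Agent.Results.MP_cec948_nt.ThirteenFails
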